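import Mathlib
import Pool.Agent.J4.H38.CH.Defs
import Pool.Agent.Helper112.Bilinear
import Pool.Agent.H441R3.BV.Dy
import Pool.Agent.H441R3.BV.Small
import Pool.Agent.H398R2.BV6

/-! Project CH (helper38), piece BVB (helper46): bilinear Bombieri-Vinogradov for the switched set. -/

set_option autoImplicit false

namespace Pool.Agent.J4.H38.CH.Bvb

open Finset Filter
open Pool.Agent.Helper112.BLB (P A res)

theorem moduli (X Y Q : ℕ) (α β : ℕ → ℝ) (h : ℕ → ℕ) (hh : ∀ q, (h q).Coprime q) (S : ℝ) (hS0 : 0 ≤ S)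
    (hS : ∀ g ∈ Icc 1 Q, ∑ f ∈ Icc 2 Q, (1 / (Nat.totient f : ℝ)) * P X Y (res g α) (res g β) f ≤ S) :
    ∑ q ∈ (Icc 1 Q).filter Squarefree, |∑ b ∈ Icc 1 X, ∑ c ∈ Icc 1 Y, α b * β c *
        ((if b * c ≡ h q [MOD q] then (1 : ℝ) else 0) -
          (if (b * c).Coprime q then (1 : ℝ) / (Nat.totient q : ℝ) else 0))| ≤ (1 + Real.log Q) ^ 2 * S := by
  set M : Finset ℕ := (Icc 1 Q).filter Squarefree with hMdef
  set G : ℕ → ℕ → ℝ := fun g f => (1 / (Nat.totient g : ℝ)) * ((1 / (Nat.totient f : ℝ)) *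
    P X Y (res g α) (res g β) f) with hG
  have hG0 : ∀ g f, 0 ≤ G g f := fun g f =>
    mul_nonneg (by positivity) (mul_nonneg (by positivity) (Pool.Agent.Helper112.BLB.P_nonneg _ _ _ _ _))
  have hM : ∀ m ∈ M, Squarefree m ∧ 1 ≤ m ∧ m ≤ Q := by
    intro m hm
    rw [hMdef, mem_filter, mem_Icc] at hm
    exact ⟨hm.2, hm.1.1, hm.1.2⟩
  have s3 : ∑ m ∈ M, |∑ b ∈ Icc 1 X, ∑ c ∈ Icc 1 Y, α b * β c *
        ((if b * c ≡ h m [MOD m] then (1 : ℝ) else 0) -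
          (if (b * c).Coprime m then (1 : ℝ) / (Nat.totient m : ℝ) else 0))| ≤
      ∑ m ∈ M, ∑ f ∈ m.divisors.filter (fun f => f ≠ 1), G (m / f) f := by
    apply sum_le_sum
    intro m hm
    obtain ⟨hs, h1m, hle⟩ := hM m hm
    have hm0 : m ≠ 0 := hs.ne_zero
    refine (Pool.Agent.Helper112.BLB.step12 X Y α β m hm0 (h m) (hh m)).trans ?_
    apply sum_le_sum
    intro f hf
    rw [mem_filter, Nat.mem_divisors] at hf
    obtain ⟨⟨⟨g, rfl⟩, -⟩, hf1⟩ := hf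
    have hf0 : 0 < f := Nat.pos_of_ne_zero (by rintro rfl; simp at hm0)
    have hg0 : 0 < g := Nat.pos_of_ne_zero (by rintro rfl; simp at hm0)
    rw [Nat.mul_div_cancel_left g hf0]
    have hcop2 : f.Coprime g := Nat.coprime_of_squarefree_mul hs
    rw [Nat.totient_mul hcop2]
    have htf : (0:ℝ) < Nat.totient f := by exact_mod_cast Nat.totient_pos.mpr hf0
    have htg0 : (0:ℝ) < Nat.totient g := by exact_mod_cast Nat.totient_pos.mpr hg0
    have e5 : 1 / (((Nat.totient f * Nat.totient g : ℕ) : ℝ)) =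
        1 / (Nat.totient g : ℝ) * (1 / (Nat.totient f : ℝ)) := by
      push_cast
      field_simp
    rw [e5, mul_assoc]
  refine s3.trans ?_
  have s4 : ∑ m ∈ M, ∑ f ∈ m.divisors.filter (fun f => f ≠ 1), G (m / f) f ≤
      ∑ g ∈ Icc 1 Q, ∑ f ∈ Icc 2 Q, G g f := by
    rw [sum_sigma', ← sum_product']
    have e6 : ∑ x ∈ M.sigma (fun m => m.divisors.filter (fun f => f ≠ 1)), G (x.1 / x.2) x.2 =
        ∑ p ∈ (M.sigma (fun m => m.divisors.filter (fun f => f ≠ 1))).image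
          (fun x : (_ : ℕ) × ℕ => (x.1 / x.2, x.2)), G p.1 p.2 := by
      rw [sum_image]
      rintro ⟨m, f⟩ hx ⟨m', f'⟩ hx' heq
      simp only [Finset.mem_coe, mem_sigma, mem_filter, Nat.mem_divisors] at hx hx'
      simp only [Prod.mk.injEq] at heq
      obtain ⟨h7, h8⟩ := heq
      subst h8
      have : m = m' := by
        rw [← Nat.div_mul_cancel hx.2.1.1, h7, Nat.div_mul_cancel hx'.2.1.1]
      subst this
      rfl
    rw [e6]
    apply sum_le_sum_of_subset_of_nonneg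
    · intro p hp
      rw [mem_image] at hp
      obtain ⟨⟨m, f⟩, hx, rfl⟩ := hp
      simp only [mem_sigma, mem_filter, Nat.mem_divisors] at hx
      obtain ⟨hs, h1m, hle⟩ := hM m hx.1
      have hm0 : 0 < m := Nat.pos_of_ne_zero hs.ne_zero
      have hfm := hx.2.1.1
      have hf0 : 0 < f := Nat.pos_of_dvd_of_pos hfm hm0
      have hf1 := hx.2.2
      simp only [mem_product, mem_Icc]
      refine ⟨⟨Nat.div_pos (Nat.le_of_dvd hm0 hfm) hf0, (Nat.div_le_self m f).trans hle⟩,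
        by omega, (Nat.le_of_dvd hm0 hfm).trans hle⟩
    · intro p _ _
      exact hG0 _ _
  refine s4.trans ?_
  have s5 : ∀ g ∈ Icc 1 Q, ∑ f ∈ Icc 2 Q, G g f ≤ (1 / (Nat.totient g : ℝ)) * S := by
    intro g hg
    rw [hG, ← mul_sum]
    exact mul_le_mul_of_nonneg_left (hS g hg) (by positivity)
  refine (sum_le_sum s5).trans ?_
  rw [← sum_mul]
  exact mul_le_mul_of_nonneg_right (Pool.Agent.H441R3.BV.sum_inv_tot Q) hS0

/-- large conductors -/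
theorem large (X Y Q F0 g : ℕ) (α β : ℕ → ℝ) (hα : ∀ n, |α n| ≤ 1) (hβ : ∀ n, |β n| ≤ 1) (hF0 : 1 ≤ F0)
    (hQ : 1 ≤ Q) :
    ∑ f ∈ Icc F0 Q, (1 / (Nat.totient f : ℝ)) * P X Y (res g α) (res g β) f ≤
      12 * (1 + Real.log Q) * (Real.sqrt (X * Y) / F0 + (Real.sqrt X + Real.sqrt Y) + Q) * Real.sqrt (X * Y) := by
  have hlog : 0 ≤ Real.log Q := Real.log_natCast_nonneg Q
  refine (Pool.Agent.Helper112.BLB.step45 X Y (res g α) (res g β) F0 Q hF0 hQ).trans ?_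
  apply mul_le_mul_of_nonneg_left _ (by positivity)
  have key : ∀ (Z : ℕ) (γ : ℕ → ℝ), (∀ n, |γ n| ≤ 1) →
      Real.sqrt (∑ b ∈ Icc 1 Z, res g γ b ^ 2) ≤ Real.sqrt Z := by
    intro Z γ hγ
    refine (Pool.Agent.Helper112.BLB.res_sq Z g γ).trans ?_
    apply Real.sqrt_le_sqrt
    calc ∑ b ∈ Icc 1 Z, γ b ^ 2 ≤ ∑ b ∈ Icc 1 Z, (1 : ℝ) := by
          apply sum_le_sum
          intro b _
          rw [← sq_abs]
          have := hγ b
          have h0 := abs_nonneg (γ b)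
          nlinarith
      _ = Z := by simp
  rw [Real.sqrt_mul (by positivity)]
  exact mul_le_mul (key X α hα) (key Y β hβ) (Real.sqrt_nonneg _) (Real.sqrt_nonneg _)

end Pool.Agent.J4.H38.CH.Bvb

namespace Pool.Agent.J4.H38.CH.Bvb

open Finset Filter
open Pool.Agent.Helper112.BLB (P A res)
open Pool.Agent.H441R3.BV (PS MX le_MX small_total)
open Pool.Agent.H398R2.BV (Prim card_prim_le)

/-- the number of the primes `≥ z` dividing `g` -/
theorem few_primes (z : ℝ) (g k : ℕ) (hz : 1 < z) (hg : 1 ≤ g) (hgz : (g : ℝ) < z ^ (k + 1)) :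
    ((g.primeFactors).filter (fun p : ℕ => z ≤ (p : ℝ))).card ≤ k := by
  classical
  set s := (g.primeFactors).filter (fun p : ℕ => z ≤ (p : ℝ)) with hs
  have h1 : ∏ p ∈ s, p ∣ g :=
    (Finset.prod_dvd_prod_of_subset s g.primeFactors _ (filter_subset _ _)).trans (Nat.prod_primeFactors_dvd g)
  have h2 : ∏ p ∈ s, p ≤ g := Nat.le_of_dvd hg h1
  have h3 : z ^ s.card ≤ ∏ p ∈ s, (p : ℝ) := by
    rw [← Finset.prod_const]
    apply Finset.prod_le_prod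
    · intro i _
      linarith
    · intro i hi
      rw [hs, mem_filter] at hi
      exact hi.2
  have h4 : z ^ s.card < z ^ (k + 1) := by
    refine lt_of_le_of_lt (h3.trans ?_) hgz
    have h6 : ((∏ p ∈ s, p : ℕ) : ℝ) ≤ (g : ℝ) := Nat.cast_le.2 h2
    rwa [Nat.cast_prod] at h6
  have h5 := (pow_lt_pow_iff_right₀ hz).1 h4
  omega

theorem PS_eq (X M f : ℕ) (hM : M ≤ X) (ψ : DirichletCharacter ℂ f) :
    PS M f ψ = ∑ n ∈ Icc 1 X, ((if n.Prime ∧ n ≤ M then (1 : ℝ) else 0 : ℝ) : ℂ) * ψ (n : ZMod f) := by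
  unfold PS
  have h1 : Icc 1 M = (Icc 1 X).filter (fun n => n ≤ M) := by
    ext n
    simp only [mem_Icc, mem_filter]
    omega
  rw [h1, sum_filter]
  apply sum_congr rfl
  intro n _
  by_cases h2 : n ≤ M
  · simp [h2]
  · simp [h2]

theorem A_cell (X f g u v k : ℕ) (ψ : DirichletCharacter ℂ f) (hu : 1 ≤ u) (huv : u ≤ v) (hv : v ≤ X + 1)
    (hg : 1 ≤ g)
    (α : ℕ → ℝ) (hα : ∀ n, α n = if n.Prime ∧ u ≤ n ∧ n < v then 1 else 0)
    (hk : ((g.primeFactors).filter (fun p : ℕ => (u : ℝ) ≤ (p : ℝ))).card ≤ k) :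
    ‖A X (res g α) f ψ‖ ≤ ‖PS (v - 1) f ψ‖ + ‖PS (u - 1) f ψ‖ + k := by
  have e1 : A X (res g α) f ψ = PS (v - 1) f ψ - PS (u - 1) f ψ -
      ∑ n ∈ Icc 1 X, ((α n - res g α n : ℝ) : ℂ) * ψ (n : ZMod f) := by
    rw [PS_eq X (v - 1) f (by omega), PS_eq X (u - 1) f (by omega)]
    unfold A
    rw [← sum_sub_distrib, ← sum_sub_distrib]
    apply sum_congr rfl
    intro n hn
    rw [mem_Icc] at hn
    have h1 : α n = (if n.Prime ∧ n ≤ v - 1 then (1 : ℝ) else 0) - (if n.Prime ∧ n ≤ u - 1 then (1 : ℝ) else 0) := by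
      rw [hα]
      by_cases hp : n.Prime
      · by_cases h2 : u ≤ n
        · by_cases h3 : n < v
          · rw [if_pos ⟨hp, h2, h3⟩, if_pos ⟨hp, by omega⟩, if_neg (by omega)]; ring
          · rw [if_neg (by omega), if_neg (by omega), if_neg (by omega)]; ring
        · rw [if_neg (by omega), if_pos ⟨hp, by omega⟩, if_pos ⟨hp, by omega⟩]; ring
      · simp [hp]
    rw [Complex.ofReal_sub, h1]
    push_cast
    ring
  have e2 : ‖∑ n ∈ Icc 1 X, ((α n - res g α n : ℝ) : ℂ) * ψ (n : ZMod f)‖ ≤ k := by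
    refine (norm_sum_le _ _).trans ?_
    have h2 : ∀ n ∈ Icc 1 X, ‖((α n - res g α n : ℝ) : ℂ) * ψ (n : ZMod f)‖ ≤
        if n ∈ (g.primeFactors).filter (fun p : ℕ => (u : ℝ) ≤ (p : ℝ)) then (1 : ℝ) else 0 := by
      intro n _
      rw [norm_mul, Complex.norm_real, Real.norm_eq_abs]
      have h3 : ‖ψ (n : ZMod f)‖ ≤ 1 := ψ.norm_le_one _
      have h4 : |α n - res g α n| ≤
          if n ∈ (g.primeFactors).filter (fun p : ℕ => (u : ℝ) ≤ (p : ℝ)) then (1 : ℝ) else 0 := by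
        unfold res
        by_cases hc : n.Coprime g
        · rw [if_pos hc, sub_self, abs_zero]
          split_ifs <;> norm_num
        · rw [if_neg hc, sub_zero, hα]
          by_cases hp : n.Prime ∧ u ≤ n ∧ n < v
          · rw [if_pos hp, abs_one, if_pos]
            rw [mem_filter, Nat.mem_primeFactors]
            refine ⟨⟨hp.1, ?_, by omega⟩, by exact_mod_cast hp.2.1⟩
            rcases (Nat.coprime_or_dvd_of_prime hp.1 g) with h | h
            · exact absurd h hc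
            · exact h
          · rw [if_neg hp, abs_zero]
            split_ifs <;> norm_num
      calc |α n - res g α n| * ‖ψ (n : ZMod f)‖ ≤ |α n - res g α n| * 1 := by gcongr
        _ ≤ _ := by rw [mul_one]; exact h4
    refine (sum_le_sum h2).trans ?_
    rw [sum_ite_mem, sum_const, nsmul_eq_mul, mul_one]
    have h5 : (Icc 1 X ∩ (g.primeFactors).filter (fun p : ℕ => (u : ℝ) ≤ (p : ℝ))).card ≤ k :=
      (card_le_card inter_subset_right).trans hk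
    exact_mod_cast h5
  rw [e1]
  refine (norm_sub_le _ _).trans ?_
  have := norm_sub_le (PS (v - 1) f ψ) (PS (u - 1) f ψ)
  linarith

theorem A_triv (Y f g : ℕ) (β : ℕ → ℝ) (hβ : ∀ n, |β n| ≤ 1) (ψ : DirichletCharacter ℂ f) :
    ‖A Y (res g β) f ψ‖ ≤ Y := by
  unfold A
  refine (norm_sum_le _ _).trans ?_
  calc ∑ b ∈ Icc 1 Y, ‖((res g β b : ℝ) : ℂ) * ψ (b : ZMod f)‖ ≤ ∑ b ∈ Icc 1 Y, (1 : ℝ) := by
        apply sum_le_sum
        intro b _
        rw [norm_mul, Complex.norm_real, Real.norm_eq_abs]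
        have h3 : ‖ψ (b : ZMod f)‖ ≤ 1 := ψ.norm_le_one _
        have h4 : |res g β b| ≤ 1 := by
          unfold res
          split_ifs
          · exact hβ b
          · simp
        calc |res g β b| * ‖ψ (b : ZMod f)‖ ≤ 1 * 1 := by gcongr
          _ = 1 := by norm_num
    _ = Y := by simp

/-- small conductors, one `g` -/
theorem small_g (X Y F0 g u v k : ℕ) (hu : 1 ≤ u) (huv : u ≤ v) (hv : v ≤ X + 1) (hg : 1 ≤ g)
    (α : ℕ → ℝ) (hα : ∀ n, α n = if n.Prime ∧ u ≤ n ∧ n < v then 1 else 0)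
    (hk : ((g.primeFactors).filter (fun p : ℕ => (u : ℝ) ≤ (p : ℝ))).card ≤ k)
    (β : ℕ → ℝ) (hβ : ∀ n, |β n| ≤ 1) (NN : Finset ℕ) (hNN : NN.Nonempty) (h1 : u - 1 ∈ NN) (h2 : v - 1 ∈ NN)
    (T : ℝ) (hT : ∑ f ∈ Icc 2 F0, (1 / (Nat.totient f : ℝ)) * ∑ ψ ∈ Prim f, MX NN hNN f ψ ≤ T) :
    ∑ f ∈ Icc 2 F0, (1 / (Nat.totient f : ℝ)) * P X Y (res g α) (res g β) f ≤ Y * (2 * T + k * F0) := by
  have key : ∀ f ∈ Icc 2 F0, (1 / (Nat.totient f : ℝ)) * P X Y (res g α) (res g β) f ≤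
      Y * (2 * ((1 / (Nat.totient f : ℝ)) * ∑ ψ ∈ Prim f, MX NN hNN f ψ) + k) := by
    intro f hf
    rw [mem_Icc] at hf
    have htf : (0:ℝ) < Nat.totient f := by exact_mod_cast Nat.totient_pos.mpr (by omega)
    have h3 : P X Y (res g α) (res g β) f ≤ ∑ ψ ∈ Prim f, (2 * MX NN hNN f ψ + k) * Y := by
      unfold P Prim
      apply sum_le_sum
      intro ψ _
      apply mul_le_mul _ (A_triv Y f g β hβ ψ) (norm_nonneg _)
      · have := (norm_nonneg _).trans (le_MX NN hNN f ψ h1)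
        positivity
      · refine (A_cell X f g u v k ψ hu huv hv hg α hα hk).trans ?_
        have := le_MX NN hNN f ψ h1
        have := le_MX NN hNN f ψ h2
        linarith
    have h4 : ∑ ψ ∈ Prim f, (2 * MX NN hNN f ψ + k) * Y =
        Y * (2 * ∑ ψ ∈ Prim f, MX NN hNN f ψ + (Prim f).card * k) := by
      rw [← sum_mul, sum_add_distrib, ← mul_sum, sum_const, nsmul_eq_mul]
      ring
    have h5 : ((Prim f).card : ℝ) ≤ Nat.totient f := card_prim_le (by omega)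
    calc (1 / (Nat.totient f : ℝ)) * P X Y (res g α) (res g β) f
        ≤ (1 / (Nat.totient f : ℝ)) * (Y * (2 * ∑ ψ ∈ Prim f, MX NN hNN f ψ + (Nat.totient f : ℝ) * k)) := by
          apply mul_le_mul_of_nonneg_left _ (by positivity)
          refine h3.trans ?_
          rw [h4]
          gcongr
      _ = _ := by field_simp
  refine (sum_le_sum key).trans ?_
  rw [← mul_sum, sum_add_distrib, ← mul_sum, sum_const, nsmul_eq_mul, Nat.card_Icc]
  apply mul_le_mul_of_nonneg_left _ (Nat.cast_nonneg _)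
  have h6 : ((F0 + 1 - 2 : ℕ) : ℝ) * (k : ℝ) ≤ k * F0 := by
    rw [mul_comm]
    apply mul_le_mul_of_nonneg_left _ (Nat.cast_nonneg _)
    have : F0 + 1 - 2 ≤ F0 := by omega
    exact_mod_cast this
  linarith

end Pool.Agent.J4.H38.CH.Bvb

namespace Pool.Agent.J4.H38.CH.Bvb

open Finset Filter
open Pool.Agent.Helper112.BLB (P A res)
open Pool.Agent.H441R3.BV (PS MX le_MX small_total)
open Pool.Agent.H398R2.BV (Prim card_prim_le)

lemma gr_ge (N j : ℕ) : (N : ℝ) ^ (1 / 8 : ℝ) ≤ gr N j := by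
  unfold gr
  refine le_trans ?_ (Nat.le_ceil _)
  have h1 : (1 : ℝ) ≤ (201 / 200 : ℝ) ^ j := one_le_pow₀ (by norm_num)
  have h2 : (0 : ℝ) ≤ (N : ℝ) ^ (1 / 8 : ℝ) := by positivity
  nlinarith

lemma gr_pos (N j : ℕ) (hN : 1 ≤ N) : 1 ≤ gr N j := by
  have h1 := gr_ge N j
  have h2 : (1 : ℝ) ≤ (N : ℝ) ^ (1 / 8 : ℝ) := Real.one_le_rpow (by exact_mod_cast hN) (by norm_num)
  exact_mod_cast h2.trans h1

lemma lt_gr_succ (N j b : ℕ) (hb : b < gr N (j + 1)) : (b : ℝ) ≤ 201 / 200 * gr N j := by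
  unfold gr at hb
  rw [Nat.lt_ceil] at hb
  have h1 := Nat.le_ceil ((N : ℝ) ^ (1 / 8 : ℝ) * (201 / 200 : ℝ) ^ j)
  unfold gr
  rw [pow_succ] at hb
  nlinarith

lemma gr_succ_le (N j : ℕ) (hN : 1 ≤ N) : (gr N (j + 1) : ℝ) ≤ 3 * gr N j := by
  have h0 : (1 : ℝ) ≤ gr N j := by exact_mod_cast gr_pos N j hN
  have h1 : 1 ≤ gr N (j + 1) := gr_pos N (j + 1) hN
  have h2 := lt_gr_succ N j (gr N (j + 1) - 1) (by omega)
  rw [Nat.cast_sub h1, Nat.cast_one] at h2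
  linarith

lemma gr_le_succ (N j : ℕ) : gr N j ≤ gr N (j + 1) := by
  unfold gr
  apply Nat.ceil_le_ceil
  apply mul_le_mul_of_nonneg_left _ (by positivity)
  exact pow_le_pow_right₀ (by norm_num) (by omega)

lemma XY_le (N j : ℕ) (hN : 1 ≤ N) : ((gr N (j + 1) : ℕ) : ℝ) * ((N / gr N j : ℕ) : ℝ) ≤ 3 * N := by
  have h1 := gr_succ_le N j hN
  have h2 : (gr N j : ℝ) * ((N / gr N j : ℕ) : ℝ) ≤ N := by exact_mod_cast Nat.mul_div_le N (gr N j)
  have h3 : (0 : ℝ) ≤ ((N / gr N j : ℕ) : ℝ) := Nat.cast_nonneg _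
  nlinarith

lemma Y_le (N j : ℕ) (hN : 1 ≤ N) : ((N / gr N j : ℕ) : ℝ) ≤ (N : ℝ) ^ (7 / 8 : ℝ) := by
  have hN0 : (0 : ℝ) < N := by exact_mod_cast hN
  have h1 := gr_ge N j
  have h2 : (0 : ℝ) < (N : ℝ) ^ (1 / 8 : ℝ) := by positivity
  have h3 : ((N / gr N j : ℕ) : ℝ) ≤ (N : ℝ) / gr N j := Nat.cast_div_le
  refine h3.trans ?_
  rw [div_le_iff₀ (by linarith)]
  calc (N : ℝ) = (N : ℝ) ^ (7 / 8 : ℝ) * (N : ℝ) ^ (1 / 8 : ℝ) := by
        rw [← Real.rpow_add hN0]; norm_num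
    _ ≤ _ := by gcongr

lemma mem_c1 (N j n : ℕ) : n ∈ c1 N j ↔ n.Prime ∧ gr N j ≤ n ∧ n < min (gr N (j + 1)) ⌈(N : ℝ) ^ (1 / 3 : ℝ)⌉₊ := by
  classical
  unfold c1
  rw [mem_filter, mem_Ico, lt_min_iff, Nat.lt_ceil]
  tauto

lemma c2_sub (N j c : ℕ) (hc : c ∈ c2 N j) : 1 ≤ c ∧ c ≤ N / gr N j := by
  classical
  unfold c2 at hc
  rw [mem_filter, mem_Icc] at hc
  exact hc.1

lemma c2_prime (N j c p : ℕ) (hc : c ∈ c2 N j) (hp : p.Prime) (hpc : p ∣ c) (hN : 1 ≤ N) :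
    (N : ℝ) ^ (1 / 8 : ℝ) ≤ p := by
  classical
  unfold c2 at hc
  rw [mem_filter] at hc
  obtain ⟨-, p1, q1, hp1, hq1, h1, h2, rfl⟩ := hc
  have h3 : (N : ℝ) ^ (1 / 8 : ℝ) ≤ (N : ℝ) ^ (1 / 3 : ℝ) :=
    Real.rpow_le_rpow_of_exponent_le (by exact_mod_cast hN) (by norm_num)
  rcases (Nat.Prime.dvd_mul hp).1 hpc with h | h
  · rw [(Nat.prime_dvd_prime_iff_eq hp hp1).1 h]
    exact h3.trans h1
  · rw [(Nat.prime_dvd_prime_iff_eq hp hq1).1 h]
    exact (h3.trans h1).trans (by exact_mod_cast h2)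

lemma prod_le (N j b c : ℕ) (hN : 1 ≤ N) (hb : b ∈ c1 N j) (hc : c ∈ c2 N j) : 1 ≤ b * c ∧ b * c ≤ 2 * N := by
  rw [mem_c1] at hb
  obtain ⟨h1, h2⟩ := c2_sub N j c hc
  have h3 : b < gr N (j + 1) := lt_of_lt_of_le hb.2.2 (min_le_left _ _)
  have h4 := lt_gr_succ N j b h3
  have h5 : b ≤ 2 * gr N j := by
    have : (b : ℝ) ≤ 2 * gr N j := by
      have : (0 : ℝ) ≤ gr N j := Nat.cast_nonneg _
      linarith
    exact_mod_cast this
  constructor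
  · exact Nat.mul_pos hb.1.pos h1
  · calc b * c ≤ (2 * gr N j) * (N / gr N j) := Nat.mul_le_mul h5 h2
      _ = 2 * (gr N j * (N / gr N j)) := by ring
      _ ≤ 2 * N := Nat.mul_le_mul_left 2 (Nat.mul_div_le N _)

lemma wB_class (N : ℕ) (hN : 1 ≤ N) (p : ℕ → Prop) [DecidablePred p] :
    ∑ n ∈ (Icc 1 (2 * N)).filter p, wB N n = ∑ j ∈ range (200 * (Nat.log 2 N + 1)),
      ∑ v ∈ c1 N j ×ˢ c2 N j, if p (v.1 * v.2) then (1 : ℝ) else 0 := by
  unfold wB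
  rw [sum_comm]
  apply sum_congr rfl
  intro j _
  have h1 : ∀ n, ((((c1 N j) ×ˢ (c2 N j)).filter (fun v => v.1 * v.2 = n)).card : ℝ) =
      ∑ v ∈ c1 N j ×ˢ c2 N j, if v.1 * v.2 = n then (1 : ℝ) else 0 := by
    intro n
    rw [← sum_filter, sum_const, nsmul_eq_mul, mul_one]
  simp_rw [h1]
  rw [sum_comm]
  apply sum_congr rfl
  intro v hv
  rw [sum_ite_eq]
  rw [mem_product] at hv
  have h2 := prod_le N j v.1 v.2 hN hv.1 hv.2
  have h3 : v.1 * v.2 ∈ (Icc 1 (2 * N)).filter p ↔ p (v.1 * v.2) := by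
    rw [mem_filter, mem_Icc]
    tauto
  simp only [h3]

lemma wB_total (N : ℕ) (hN : 1 ≤ N) :
    ∑ n ∈ Icc 1 (2 * N), wB N n = ∑ j ∈ range (200 * (Nat.log 2 N + 1)),
      ∑ v ∈ c1 N j ×ˢ c2 N j, (1 : ℝ) := by
  have h := wB_class N hN (fun _ => True)
  simpa using h

lemma cell_sum (N j : ℕ) (hN : 1 ≤ N) (α β : ℕ → ℝ) (hα : ∀ n, α n = if n ∈ c1 N j then 1 else 0)
    (hβ : ∀ n, β n = if n ∈ c2 N j then 1 else 0) (F : ℕ → ℕ → ℝ) :
    ∑ v ∈ c1 N j ×ˢ c2 N j, F v.1 v.2 =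
      ∑ b ∈ Icc 1 (gr N (j + 1)), ∑ c ∈ Icc 1 (N / gr N j), α b * β c * F b c := by
  rw [sum_product]
  have h1 : c1 N j = (Icc 1 (gr N (j + 1))).filter (fun b => b ∈ c1 N j) := by
    ext b
    rw [mem_filter, mem_Icc]
    constructor
    · intro h
      refine ⟨?_, h⟩
      rw [mem_c1] at h
      have := gr_pos N j hN
      have h3 : b < gr N (j + 1) := lt_of_lt_of_le h.2.2 (min_le_left _ _)
      omega
    · intro h
      exact h.2
  have h2 : c2 N j = (Icc 1 (N / gr N j)).filter (fun b => b ∈ c2 N j) := by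
    ext b
    rw [mem_filter, mem_Icc]
    constructor
    · intro h
      exact ⟨c2_sub N j b h, h⟩
    · intro h
      exact h.2
  have h3 : ∑ x ∈ c1 N j, ∑ y ∈ c2 N j, F x y =
      ∑ x ∈ (Icc 1 (gr N (j + 1))).filter (fun b => b ∈ c1 N j),
        ∑ y ∈ (Icc 1 (N / gr N j)).filter (fun b => b ∈ c2 N j), F x y := by
    rw [← h1, ← h2]
  rw [h3, sum_filter]
  apply sum_congr rfl
  intro b _
  by_cases hb : b ∈ c1 N j
  · rw [if_pos hb, sum_filter]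
    apply sum_congr rfl
    intro c _
    rw [hα, hβ, if_pos hb]
    by_cases hc : c ∈ c2 N j
    · rw [if_pos hc, if_pos hc]; ring
    · rw [if_neg hc, if_neg hc]; ring
  · rw [if_neg hb]
    symm
    apply sum_eq_zero
    intro c _
    rw [hα, if_neg hb]
    ring

/-- pairs not coprime to `q` -/
lemma bad_pairs (N j q : ℕ) (hN : 2 ≤ N) (hq : 1 ≤ q) (hqN : q ≤ N) :
    ∑ v ∈ c1 N j ×ˢ c2 N j, (if (v.1 * v.2).Coprime q then (0 : ℝ) else 1) ≤ 32 * (N : ℝ) ^ (7 / 8 : ℝ) := by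
  classical
  have hN1 : 1 ≤ N := by omega
  have hN0 : (0 : ℝ) < N := by positivity
  have hNr : (1 : ℝ) < N := by exact_mod_cast (show 1 < N by omega)
  set z : ℝ := (N : ℝ) ^ (1 / 8 : ℝ) with hz
  have hz1 : 1 < z := Real.one_lt_rpow hNr (by norm_num)
  set s := (q.primeFactors).filter (fun p : ℕ => z ≤ (p : ℝ)) with hs
  have hcard : s.card ≤ 8 := by
    apply few_primes z q 8 hz1 hq
    have h1 : z ^ 8 = N := by
      rw [hz, ← Real.rpow_natCast, ← Real.rpow_mul hN0.le]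
      norm_num
    have h2 : (q : ℝ) ≤ N := by exact_mod_cast hqN
    calc (q : ℝ) ≤ z ^ 8 := by rw [h1]; exact h2
      _ < z ^ (8 + 1) := pow_lt_pow_right₀ hz1 (by norm_num)
  have hpt : ∀ v ∈ c1 N j ×ˢ c2 N j, (if (v.1 * v.2).Coprime q then (0 : ℝ) else 1) ≤
      ∑ p ∈ s, ((if v.1 = p then (1 : ℝ) else 0) + (if p ∣ v.2 then (1 : ℝ) else 0)) := by
    intro v hv
    rw [mem_product] at hv
    have hnn : ∀ p ∈ s, (0 : ℝ) ≤ (if v.1 = p then (1 : ℝ) else 0) + (if p ∣ v.2 then (1 : ℝ) else 0) := by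
      intro p _
      split_ifs <;> norm_num
    by_cases hc : (v.1 * v.2).Coprime q
    · rw [if_pos hc]
      exact sum_nonneg hnn
    · rw [if_neg hc]
      obtain ⟨p, hp, h1, h2⟩ := Nat.Prime.not_coprime_iff_dvd.1 hc
      have hv1 := (mem_c1 N j v.1).1 hv.1
      have hps : z ≤ p ∧ (1 : ℝ) ≤ (if v.1 = p then (1 : ℝ) else 0) + (if p ∣ v.2 then (1 : ℝ) else 0) := by
        rcases (Nat.Prime.dvd_mul hp).1 h1 with h | h
        · have h3 := (Nat.prime_dvd_prime_iff_eq hp hv1.1).1 h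
          refine ⟨?_, ?_⟩
          · rw [h3]
            exact (gr_ge N j).trans (by exact_mod_cast hv1.2.1)
          · rw [if_pos h3.symm]
            split_ifs <;> norm_num
        · refine ⟨c2_prime N j v.2 p hv.2 hp h hN1, ?_⟩
          rw [if_pos h]
          split_ifs <;> norm_num
      have hmem : p ∈ s := by
        rw [hs, mem_filter, Nat.mem_primeFactors]
        exact ⟨⟨hp, h2, by omega⟩, hps.1⟩
      exact hps.2.trans (single_le_sum hnn hmem)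
  refine (sum_le_sum hpt).trans ?_
  rw [sum_comm]
  have hY := Y_le N j hN1
  have hXY := XY_le N j hN1
  have hc1X : ((c1 N j).card : ℝ) ≤ gr N (j + 1) := by
    have h1 : c1 N j ⊆ Ico (gr N j) (gr N (j + 1)) := by
      unfold c1
      exact filter_subset _ _
    have h2 := card_le_card h1
    rw [Nat.card_Ico] at h2
    have h3 : (c1 N j).card ≤ gr N (j + 1) := by omega
    exact_mod_cast h3
  have hc2Y : ((c2 N j).card : ℝ) ≤ (N / gr N j : ℕ) := by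
    have h1 : c2 N j ⊆ Icc 1 (N / gr N j) := by
      unfold c2
      exact filter_subset _ _
    have h2 := card_le_card h1
    rw [Nat.card_Icc, Nat.add_sub_cancel] at h2
    exact_mod_cast h2
  have hp : ∀ p ∈ s, ∑ v ∈ c1 N j ×ˢ c2 N j, ((if v.1 = p then (1 : ℝ) else 0) + (if p ∣ v.2 then (1 : ℝ) else 0)) ≤
      4 * (N : ℝ) ^ (7 / 8 : ℝ) := by
    intro p hps
    rw [hs, mem_filter, Nat.mem_primeFactors] at hps
    obtain ⟨⟨hpp, -, -⟩, hpz⟩ := hps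
    have hp0 : (0 : ℝ) < p := by linarith
    rw [sum_add_distrib]
    have h1 : ∑ v ∈ c1 N j ×ˢ c2 N j, (if v.1 = p then (1 : ℝ) else 0) ≤ (N : ℝ) ^ (7 / 8 : ℝ) := by
      have e0 : ∑ v ∈ c1 N j ×ˢ c2 N j, (if v.1 = p then (1 : ℝ) else 0) =
        ∑ x ∈ c1 N j, ∑ _y ∈ c2 N j, (if x = p then (1 : ℝ) else 0) := sum_product _ _ _
      rw [e0]
      simp only [sum_const, nsmul_eq_mul]
      have : ∑ x ∈ c1 N j, ((c2 N j).card : ℝ) * (if x = p then (1 : ℝ) else 0) ≤ (c2 N j).card := by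
        rw [← mul_sum, sum_ite_eq']
        split_ifs
        · simp
        · simp
      exact (this.trans hc2Y).trans hY
    have h2 : ∑ v ∈ c1 N j ×ˢ c2 N j, (if p ∣ v.2 then (1 : ℝ) else 0) ≤ 3 * (N : ℝ) ^ (7 / 8 : ℝ) := by
      have e0 : ∑ v ∈ c1 N j ×ˢ c2 N j, (if p ∣ v.2 then (1 : ℝ) else 0) =
        ∑ _x ∈ c1 N j, ∑ y ∈ c2 N j, (if p ∣ y then (1 : ℝ) else 0) := sum_product _ _ _
      rw [e0, sum_const, nsmul_eq_mul]
      have h3 : ∑ c ∈ c2 N j, (if p ∣ c then (1 : ℝ) else 0) ≤ ((N / gr N j : ℕ) : ℝ) / p := by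
        rw [← sum_filter, sum_const, nsmul_eq_mul, mul_one]
        have h4 : (c2 N j).filter (fun c => p ∣ c) ⊆ (Ioc 0 (N / gr N j)).filter (fun c => p ∣ c) := by
          intro c hc
          rw [mem_filter] at hc ⊢
          have := c2_sub N j c hc.1
          rw [mem_Ioc]
          exact ⟨⟨by omega, by omega⟩, hc.2⟩
        have h5 := card_le_card h4
        rw [Nat.Ioc_filter_dvd_card_eq_div] at h5
        calc (((c2 N j).filter (fun c => p ∣ c)).card : ℝ) ≤ ((N / gr N j / p : ℕ) : ℝ) := by exact_mod_cast h5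
          _ ≤ _ := Nat.cast_div_le
      have h6 : (0 : ℝ) ≤ ∑ c ∈ c2 N j, (if p ∣ c then (1 : ℝ) else 0) :=
        sum_nonneg (fun c _ => by split_ifs <;> norm_num)
      calc ((c1 N j).card : ℝ) * ∑ c ∈ c2 N j, (if p ∣ c then (1 : ℝ) else 0)
          ≤ (gr N (j + 1) : ℝ) * (((N / gr N j : ℕ) : ℝ) / p) := by gcongr
        _ = ((gr N (j + 1) : ℝ) * ((N / gr N j : ℕ) : ℝ)) / p := by ring
        _ ≤ 3 * N / z := by gcongr
        _ = 3 * (N : ℝ) ^ (7 / 8 : ℝ) := by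
          rw [div_eq_iff (by linarith), hz, mul_assoc, ← Real.rpow_add hN0]
          norm_num
    linarith
  calc ∑ p ∈ s, ∑ v ∈ c1 N j ×ˢ c2 N j, ((if v.1 = p then (1 : ℝ) else 0) + (if p ∣ v.2 then (1 : ℝ) else 0))
      ≤ ∑ p ∈ s, 4 * (N : ℝ) ^ (7 / 8 : ℝ) := sum_le_sum hp
    _ = s.card * (4 * (N : ℝ) ^ (7 / 8 : ℝ)) := by rw [sum_const, nsmul_eq_mul]
    _ ≤ 8 * (4 * (N : ℝ) ^ (7 / 8 : ℝ)) := by
      apply mul_le_mul_of_nonneg_right _ (by positivity)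
      exact_mod_cast hcard
    _ = _ := by ring

end Pool.Agent.J4.H38.CH.Bvb

namespace Pool.Agent.J4.H38.CH.Bvb

open Finset Filter
open Pool.Agent.Helper112.BLB (P A res)
open Pool.Agent.H441R3.BV (PS MX le_MX small_total)
open Pool.Agent.H398R2.BV (Prim card_prim_le)

lemma split_sum (a : ℕ → ℝ) (ha : ∀ n, 0 ≤ a n) (F0 Q : ℕ) :
    ∑ f ∈ Icc 2 Q, a f ≤ ∑ f ∈ Icc 2 F0, a f + ∑ f ∈ Icc (F0 + 1) Q, a f := by
  rw [← sum_union]
  · apply sum_le_sum_of_subset_of_nonneg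
    · intro n hn
      rw [mem_union, mem_Icc, mem_Icc]
      rw [mem_Icc] at hn
      omega
    · intro n _ _
      exact ha n
  · rw [disjoint_left]
    intro n h1 h2
    rw [mem_Icc] at h1 h2
    omega

lemma evR (p : ℝ → Prop) (h : ∀ᶠ x : ℝ in atTop, p x) : ∀ᶠ N : ℕ in atTop, p (N : ℝ) :=
  tendsto_natCast_atTop_atTop.eventually h

/-- one cell -/
theorem cell_bound (V B : ℕ) : ∀ᶠ N : ℕ in atTop, ∀ j : ℕ, ∀ h : ℕ → ℕ, (∀ q, (h q).Coprime q) →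
    ∑ q ∈ (Icc 1 ⌊(N : ℝ) ^ (999 / 2000 : ℝ)⌋₊).filter Squarefree,
      |∑ v ∈ c1 N j ×ˢ c2 N j, ((if v.1 * v.2 ≡ h q [MOD q] then (1 : ℝ) else 0) -
        (if (v.1 * v.2).Coprime q then (1 : ℝ) / (Nat.totient q : ℝ) else 0))| ≤
      (1 + Real.log N) ^ 2 * (12 * (1 + Real.log N) * (3 * N / Real.log N ^ B + 8 * (N : ℝ) ^ (1999 / 2000 : ℝ)) +
        6 * 8 ^ V * (N / Real.log N ^ V) + 8 * ((N : ℝ) ^ (7 / 8 : ℝ) * Real.log N ^ B)) := by
  obtain ⟨x0, hx0⟩ := small_total V (B + 1)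
  have t1 : Tendsto (fun x : ℝ => x ^ (1 / 8 : ℝ)) atTop atTop := tendsto_rpow_atTop (by norm_num)
  filter_upwards [evR _ (t1.eventually_ge_atTop (x0 : ℝ)), evR _ (t1.eventually_ge_atTop (3 : ℝ)),
    evR _ (Real.tendsto_log_atTop.eventually_ge_atTop ((8 : ℝ) ^ (B + 1))), eventually_ge_atTop 2]
    with N e1 e2 e3 hN2
  intro j h hh
  have hN : 1 ≤ N := by omega
  have hN0 : (0 : ℝ) < N := by exact_mod_cast hN
  have hN1r : (1 : ℝ) ≤ N := by exact_mod_cast hN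
  set L := Real.log N with hL
  have hL8 : (1 : ℝ) ≤ (8 : ℝ) ^ (B + 1) := one_le_pow₀ (by norm_num)
  have hL1 : 1 ≤ L := hL8.trans e3
  have hL0 : 0 < L := by linarith
  set u := gr N j with hu
  set v := min (gr N (j + 1)) ⌈(N : ℝ) ^ (1 / 3 : ℝ)⌉₊ with hv
  have hRHS : 0 ≤ (1 + L) ^ 2 * (12 * (1 + L) * (3 * N / L ^ B + 8 * (N : ℝ) ^ (1999 / 2000 : ℝ)) +
        6 * 8 ^ V * (N / L ^ V) + 8 * ((N : ℝ) ^ (7 / 8 : ℝ) * L ^ B)) := by positivity
  rcases Nat.lt_or_ge u v with huv | huv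
  swap
  · have hemp : c1 N j = ∅ := by
      rw [eq_empty_iff_forall_notMem]
      intro n hn
      rw [mem_c1] at hn
      omega
    have : ∑ q ∈ (Icc 1 ⌊(N : ℝ) ^ (999 / 2000 : ℝ)⌋₊).filter Squarefree,
      |∑ v ∈ c1 N j ×ˢ c2 N j, ((if v.1 * v.2 ≡ h q [MOD q] then (1 : ℝ) else 0) -
        (if (v.1 * v.2).Coprime q then (1 : ℝ) / (Nat.totient q : ℝ) else 0))| = 0 := by
      apply sum_eq_zero
      intro q _
      rw [hemp, empty_product, sum_empty, abs_zero]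
    rw [this]
    exact hRHS
  set X := gr N (j + 1) with hX
  set Y := N / gr N j with hY
  set Q := ⌊(N : ℝ) ^ (999 / 2000 : ℝ)⌋₊ with hQ
  set F0 := ⌊L ^ B⌋₊ with hF0
  have hQ1 : 1 ≤ Q := by
    rw [hQ]
    apply Nat.le_floor
    rw [Nat.cast_one]
    exact Real.one_le_rpow hN1r (by norm_num)
  have hQr : (Q : ℝ) ≤ (N : ℝ) ^ (999 / 2000 : ℝ) := Nat.floor_le (by positivity)
  have hQN : (Q : ℝ) ≤ N := by
    refine hQr.trans ?_
    calc (N : ℝ) ^ (999 / 2000 : ℝ) ≤ (N : ℝ) ^ (1 : ℝ) := Real.rpow_le_rpow_of_exponent_le hN1r (by norm_num)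
      _ = N := Real.rpow_one _
  have hlogQ : Real.log Q ≤ L := Real.log_le_log (by exact_mod_cast hQ1) hQN
  have hlogQ0 : 0 ≤ Real.log Q := Real.log_natCast_nonneg Q
  classical
  set α : ℕ → ℝ := fun n => if n ∈ c1 N j then 1 else 0 with hα
  set β : ℕ → ℝ := fun n => if n ∈ c2 N j then 1 else 0 with hβ
  have hα1 : ∀ n, |α n| ≤ 1 := by
    intro n
    rw [hα]
    dsimp only
    split_ifs <;> simp
  have hβ1 : ∀ n, |β n| ≤ 1 := by
    intro n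
    rw [hβ]
    dsimp only
    split_ifs <;> simp
  have hα2 : ∀ n, α n = if n.Prime ∧ u ≤ n ∧ n < v then 1 else 0 := by
    intro n
    rw [hα]
    dsimp only
    simp only [mem_c1]
    rfl
  have hYr : (Y : ℝ) ≤ (N : ℝ) ^ (7 / 8 : ℝ) := Y_le N j hN
  have hXYr : (X : ℝ) * (Y : ℝ) ≤ 3 * N := XY_le N j hN
  have hu1 : (N : ℝ) ^ (1 / 8 : ℝ) ≤ u := gr_ge N j
  have hu3 : 3 ≤ u := by exact_mod_cast e2.trans hu1
  have hvX : v ≤ X := min_le_left _ _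
  set x := v - 1 with hx
  have hxu : u ≤ x := by omega
  have hx8 : (N : ℝ) ^ (1 / 8 : ℝ) ≤ x := hu1.trans (by exact_mod_cast hxu)
  have hxx0 : x0 ≤ x := by exact_mod_cast e1.trans hx8
  have hlogx : L / 8 ≤ Real.log x := by
    have h1 := Real.log_le_log (by positivity) hx8
    rw [Real.log_rpow hN0] at h1
    linarith
  have hF0r : (F0 : ℝ) ≤ L ^ B := Nat.floor_le (by positivity)
  have hF0x : (F0 : ℝ) ≤ Real.log x ^ (B + 1) := by
    refine hF0r.trans ?_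
    calc L ^ B ≤ (L / 8) ^ (B + 1) := by
          rw [div_pow, le_div_iff₀ (by positivity), pow_succ L B]
          gcongr
      _ ≤ _ := by gcongr
  have hNN : ∀ M ∈ ({u - 1, v - 1} : Finset ℕ), 2 ≤ M ∧ M ≤ x := by
    intro M hM
    rw [mem_insert, mem_singleton] at hM
    omega
  have hsm := hx0 x hxx0 F0 hF0x {u - 1, v - 1} ⟨u - 1, by simp⟩ hNN
  -- the bound `S`
  set S1 : ℝ := Y * (2 * (x / Real.log x ^ V) + (8 : ℕ) * F0) with hS1
  set S2 : ℝ := 12 * (1 + Real.log Q) * (Real.sqrt (X * Y) / ((F0 + 1 : ℕ) : ℝ) + (Real.sqrt X + Real.sqrt Y) + Q) *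
    Real.sqrt (X * Y) with hS2
  have hlx0 : 0 < Real.log x := by linarith
  have hS10 : 0 ≤ S1 := by positivity
  have hS20 : 0 ≤ S2 := by positivity
  have hmod := moduli X Y Q α β h hh (S1 + S2) (by positivity) (by
    intro g hg
    rw [mem_Icc] at hg
    refine (split_sum _ (fun n => mul_nonneg (by positivity)
      (Pool.Agent.Helper112.BLB.P_nonneg _ _ _ _ _)) F0 Q).trans ?_
    apply add_le_add
    · apply small_g X Y F0 g u v 8 (by omega) huv.le (by omega) hg.1 α hα2 _ β hβ1 {u - 1, v - 1} ⟨u - 1, by simp⟩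
        (by simp) (by simp) _ hsm
      have hzz : (1 : ℝ) < u := by
        have : (3 : ℝ) ≤ u := by exact_mod_cast hu3
        linarith
      apply few_primes (u : ℝ) g 8 hzz hg.1
      have h1 : (N : ℝ) ≤ (u : ℝ) ^ 8 := by
        have h2 : ((N : ℝ) ^ (1 / 8 : ℝ)) ^ 8 = N := by
          rw [← Real.rpow_natCast, ← Real.rpow_mul hN0.le]
          norm_num
        calc (N : ℝ) = ((N : ℝ) ^ (1 / 8 : ℝ)) ^ 8 := h2.symm
          _ ≤ (u : ℝ) ^ 8 := by gcongr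
      calc (g : ℝ) ≤ Q := by exact_mod_cast hg.2
        _ ≤ N := hQN
        _ ≤ (u : ℝ) ^ 8 := h1
        _ < (u : ℝ) ^ (8 + 1) := pow_lt_pow_right₀ hzz (by norm_num)
    · exact large X Y Q (F0 + 1) g α β hα1 hβ1 (by omega) hQ1)
  have hcs : ∀ q, ∑ v ∈ c1 N j ×ˢ c2 N j, ((if v.1 * v.2 ≡ h q [MOD q] then (1 : ℝ) else 0) -
        (if (v.1 * v.2).Coprime q then (1 : ℝ) / (Nat.totient q : ℝ) else 0)) =
      ∑ b ∈ Icc 1 X, ∑ c ∈ Icc 1 Y, α b * β c * ((if b * c ≡ h q [MOD q] then (1 : ℝ) else 0) -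
        (if (b * c).Coprime q then (1 : ℝ) / (Nat.totient q : ℝ) else 0)) := by
    intro q
    exact cell_sum N j hN α β (fun n => rfl) (fun n => rfl) (fun b c =>
      ((if b * c ≡ h q [MOD q] then (1 : ℝ) else 0) -
        (if (b * c).Coprime q then (1 : ℝ) / (Nat.totient q : ℝ) else 0)))
  rw [sum_congr rfl (fun q _ => by rw [hcs q])]
  refine hmod.trans ?_
  -- numerics
  have hs1 : S1 ≤ 6 * 8 ^ V * (N / L ^ V) + 8 * ((N : ℝ) ^ (7 / 8 : ℝ) * L ^ B) := by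
    rw [hS1]
    have h1 : (Y : ℝ) * (x / Real.log x ^ V) ≤ 3 * 8 ^ V * (N / L ^ V) := by
      have h2 : (Y : ℝ) * x ≤ 3 * N := by
        have h3 : (x : ℝ) ≤ X := by exact_mod_cast (show x ≤ X by omega)
        calc (Y : ℝ) * x ≤ Y * X := by gcongr
          _ = X * Y := by ring
          _ ≤ _ := hXYr
      have h4 : (L / 8) ^ V ≤ Real.log x ^ V := by gcongr
      calc (Y : ℝ) * (x / Real.log x ^ V) = (Y * x) / Real.log x ^ V := by ring
        _ ≤ (3 * N) / (L / 8) ^ V := by gcongr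
        _ = _ := by
          rw [div_pow]
          field_simp
    have h5 : (Y : ℝ) * F0 ≤ (N : ℝ) ^ (7 / 8 : ℝ) * L ^ B := by gcongr
    have e : (Y : ℝ) * (2 * (x / Real.log x ^ V) + (8 : ℕ) * F0) =
      2 * ((Y : ℝ) * (x / Real.log x ^ V)) + 8 * ((Y : ℝ) * F0) := by push_cast; ring
    rw [e]
    linarith
  have hsq : Real.sqrt ((X : ℝ) * Y) ^ 2 ≤ 3 * N := by
    rw [Real.sq_sqrt (by positivity)]
    exact hXYr
  have hsq2 : Real.sqrt ((X : ℝ) * Y) ≤ 2 * (N : ℝ) ^ (1 / 2 : ℝ) := by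
    rw [← Real.sqrt_eq_rpow]
    apply Real.sqrt_le_iff.2
    refine ⟨by positivity, ?_⟩
    rw [mul_pow, Real.sq_sqrt hN0.le]
    linarith
  have hu13 : (u : ℝ) < (N : ℝ) ^ (1 / 3 : ℝ) := by
    have h1 : u < ⌈(N : ℝ) ^ (1 / 3 : ℝ)⌉₊ := lt_of_lt_of_le huv (min_le_right _ _)
    exact Nat.lt_ceil.1 h1
  have hXr : (X : ℝ) ≤ 4 * (N : ℝ) ^ (7 / 8 : ℝ) := by
    have h1 := gr_succ_le N j hN
    have h2 : (N : ℝ) ^ (1 / 3 : ℝ) ≤ (N : ℝ) ^ (7 / 8 : ℝ) :=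
      Real.rpow_le_rpow_of_exponent_le hN1r (by norm_num)
    have h3 : (0 : ℝ) ≤ (N : ℝ) ^ (7 / 8 : ℝ) := by positivity
    linarith
  have h716 : ((N : ℝ) ^ (7 / 16 : ℝ)) ^ 2 = (N : ℝ) ^ (7 / 8 : ℝ) := by
    rw [← Real.rpow_natCast, ← Real.rpow_mul hN0.le]
    norm_num
  have hsX : Real.sqrt X ≤ 2 * (N : ℝ) ^ (7 / 16 : ℝ) := by
    apply Real.sqrt_le_iff.2
    refine ⟨by positivity, ?_⟩
    rw [mul_pow, h716]
    linarith
  have hsY : Real.sqrt Y ≤ (N : ℝ) ^ (7 / 16 : ℝ) := by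
    apply Real.sqrt_le_iff.2
    refine ⟨by positivity, ?_⟩
    rw [h716]
    exact hYr
  have hF1 : L ^ B ≤ ((F0 + 1 : ℕ) : ℝ) := by
    push_cast
    exact (Nat.lt_floor_add_one (L ^ B)).le
  have hs2 : S2 ≤ 12 * (1 + L) * (3 * N / L ^ B + 8 * (N : ℝ) ^ (1999 / 2000 : ℝ)) := by
    rw [hS2, mul_assoc]
    have hr1 : Real.sqrt ((X : ℝ) * Y) / ((F0 + 1 : ℕ) : ℝ) * Real.sqrt ((X : ℝ) * Y) ≤ 3 * N / L ^ B := by
      calc Real.sqrt ((X : ℝ) * Y) / ((F0 + 1 : ℕ) : ℝ) * Real.sqrt ((X : ℝ) * Y) =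
          Real.sqrt ((X : ℝ) * Y) ^ 2 / ((F0 + 1 : ℕ) : ℝ) := by ring
        _ ≤ 3 * N / L ^ B := by gcongr
    have hr2 : (Real.sqrt X + Real.sqrt Y) * Real.sqrt ((X : ℝ) * Y) ≤ 6 * (N : ℝ) ^ (1999 / 2000 : ℝ) := by
      calc (Real.sqrt X + Real.sqrt Y) * Real.sqrt ((X : ℝ) * Y) ≤
          (2 * (N : ℝ) ^ (7 / 16 : ℝ) + (N : ℝ) ^ (7 / 16 : ℝ)) * (2 * (N : ℝ) ^ (1 / 2 : ℝ)) := by gcongr
        _ = 6 * ((N : ℝ) ^ (7 / 16 : ℝ) * (N : ℝ) ^ (1 / 2 : ℝ)) := by ring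
        _ = 6 * (N : ℝ) ^ (15 / 16 : ℝ) := by
          rw [← Real.rpow_add hN0]; norm_num
        _ ≤ _ := by
          apply mul_le_mul_of_nonneg_left _ (by norm_num)
          exact Real.rpow_le_rpow_of_exponent_le hN1r (by norm_num)
    have hr3 : (Q : ℝ) * Real.sqrt ((X : ℝ) * Y) ≤ 2 * (N : ℝ) ^ (1999 / 2000 : ℝ) := by
      calc (Q : ℝ) * Real.sqrt ((X : ℝ) * Y) ≤ (N : ℝ) ^ (999 / 2000 : ℝ) * (2 * (N : ℝ) ^ (1 / 2 : ℝ)) := by gcongr
        _ = 2 * ((N : ℝ) ^ (999 / 2000 : ℝ) * (N : ℝ) ^ (1 / 2 : ℝ)) := by ring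
        _ = _ := by rw [← Real.rpow_add hN0]; norm_num
    have hr4 : (Real.sqrt ((X : ℝ) * Y) / ((F0 + 1 : ℕ) : ℝ) + (Real.sqrt X + Real.sqrt Y) + Q) *
        Real.sqrt ((X : ℝ) * Y) ≤ 3 * N / L ^ B + 8 * (N : ℝ) ^ (1999 / 2000 : ℝ) := by
      rw [add_mul, add_mul]
      linarith
    gcongr
  calc (1 + Real.log Q) ^ 2 * (S1 + S2) ≤ (1 + L) ^ 2 * ((6 * 8 ^ V * (N / L ^ V) +
        8 * ((N : ℝ) ^ (7 / 8 : ℝ) * L ^ B)) + 12 * (1 + L) * (3 * N / L ^ B + 8 * (N : ℝ) ^ (1999 / 2000 : ℝ))) := by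
        gcongr
    _ = _ := by ring

lemma J_le (N : ℕ) (hN : 2 ≤ N) (hL : 1 ≤ Real.log N) :
    ((200 * (Nat.log 2 N + 1) : ℕ) : ℝ) ≤ 600 * Real.log N := by
  have h1 : (2 : ℝ) ^ (Nat.log 2 N) ≤ N := by exact_mod_cast Nat.pow_log_le_self 2 (by omega)
  have h2 := Real.log_le_log (by positivity) h1
  rw [Real.log_pow] at h2
  have h3 := Real.log_two_gt_d9
  push_cast
  have h4 : (0 : ℝ) ≤ Nat.log 2 N := Nat.cast_nonneg _
  nlinarith

end Pool.Agent.J4.H38.CH.Bvb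

namespace Pool.Agent.J4.H38.CH.Bvb

open Finset Filter

/-- the sum over all cells -/
theorem total (N : ℕ) (hN : 2 ≤ N) (Q : ℕ) (hQ1 : 1 ≤ Q) (hQN : Q ≤ N) (h : ℕ → ℕ) (T : ℝ)
    (hT : ∀ j : ℕ, ∑ q ∈ (Icc 1 Q).filter Squarefree,
      |∑ v ∈ c1 N j ×ˢ c2 N j, ((if v.1 * v.2 ≡ h q [MOD q] then (1 : ℝ) else 0) -
        (if (v.1 * v.2).Coprime q then (1 : ℝ) / (Nat.totient q : ℝ) else 0))| ≤ T) :
    ∑ q ∈ (Icc 1 Q).filter Squarefree, |∑ n ∈ (Icc 1 (2 * N)).filter (fun n => n ≡ h q [MOD q]), wB N n -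
      (∑ n ∈ Icc 1 (2 * N), wB N n) / (Nat.totient q : ℝ)| ≤
      ((200 * (Nat.log 2 N + 1) : ℕ) : ℝ) * (T + (1 + Real.log N) ^ 2 * (32 * (N : ℝ) ^ (7 / 8 : ℝ))) := by
  have hN1 : 1 ≤ N := by omega
  set J := 200 * (Nat.log 2 N + 1) with hJ
  have hpt : ∀ q ∈ (Icc 1 Q).filter Squarefree,
      |∑ n ∈ (Icc 1 (2 * N)).filter (fun n => n ≡ h q [MOD q]), wB N n -
      (∑ n ∈ Icc 1 (2 * N), wB N n) / (Nat.totient q : ℝ)| ≤
      ∑ j ∈ range J, |∑ v ∈ c1 N j ×ˢ c2 N j, ((if v.1 * v.2 ≡ h q [MOD q] then (1 : ℝ) else 0) -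
        (if (v.1 * v.2).Coprime q then (1 : ℝ) / (Nat.totient q : ℝ) else 0))| +
      (J : ℝ) * ((1 / (Nat.totient q : ℝ)) * (32 * (N : ℝ) ^ (7 / 8 : ℝ))) := by
    intro q hq
    rw [mem_filter, mem_Icc] at hq
    rw [wB_class N hN1, wB_total N hN1, sum_div, ← sum_sub_distrib]
    have e1 : ∀ j ∈ range J, (∑ v ∈ c1 N j ×ˢ c2 N j, (if v.1 * v.2 ≡ h q [MOD q] then (1 : ℝ) else 0)) -
        (∑ v ∈ c1 N j ×ˢ c2 N j, (1 : ℝ)) / (Nat.totient q : ℝ) =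
        ∑ v ∈ c1 N j ×ˢ c2 N j, ((if v.1 * v.2 ≡ h q [MOD q] then (1 : ℝ) else 0) -
        (if (v.1 * v.2).Coprime q then (1 : ℝ) / (Nat.totient q : ℝ) else 0)) -
        (1 / (Nat.totient q : ℝ)) * ∑ v ∈ c1 N j ×ˢ c2 N j, (if (v.1 * v.2).Coprime q then (0 : ℝ) else 1) := by
      intro j _
      rw [sum_div, ← sum_sub_distrib, mul_sum, ← sum_sub_distrib]
      apply sum_congr rfl
      intro v _
      by_cases hc : (v.1 * v.2).Coprime q
      · simp only [if_pos hc]; ring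
      · simp only [if_neg hc]; ring
    rw [sum_congr rfl e1, sum_sub_distrib]
    refine (abs_sub _ _).trans ?_
    apply add_le_add
    · exact abs_sum_le_sum_abs _ _
    · refine (abs_sum_le_sum_abs _ _).trans ?_
      calc ∑ j ∈ range J, |(1 / (Nat.totient q : ℝ)) *
            ∑ v ∈ c1 N j ×ˢ c2 N j, (if (v.1 * v.2).Coprime q then (0 : ℝ) else 1)|
          ≤ ∑ j ∈ range J, (1 / (Nat.totient q : ℝ)) * (32 * (N : ℝ) ^ (7 / 8 : ℝ)) := by
            apply sum_le_sum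
            intro j _
            have h0 : 0 ≤ ∑ v ∈ c1 N j ×ˢ c2 N j, (if (v.1 * v.2).Coprime q then (0 : ℝ) else 1) :=
              sum_nonneg (fun v _ => by split_ifs <;> norm_num)
            rw [abs_of_nonneg (by positivity)]
            apply mul_le_mul_of_nonneg_left _ (by positivity)
            exact bad_pairs N j q hN hq.1.1 (hq.1.2.trans hQN)
        _ = _ := by rw [sum_const, card_range, nsmul_eq_mul]
  refine (sum_le_sum hpt).trans ?_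
  rw [sum_add_distrib, sum_comm]
  have h1 : ∑ j ∈ range J, ∑ q ∈ (Icc 1 Q).filter Squarefree,
      |∑ v ∈ c1 N j ×ˢ c2 N j, ((if v.1 * v.2 ≡ h q [MOD q] then (1 : ℝ) else 0) -
        (if (v.1 * v.2).Coprime q then (1 : ℝ) / (Nat.totient q : ℝ) else 0))| ≤ J * T := by
    refine (sum_le_sum (fun j _ => hT j)).trans ?_
    rw [sum_const, card_range, nsmul_eq_mul]
  have h2 : ∑ q ∈ (Icc 1 Q).filter Squarefree, (J : ℝ) * ((1 / (Nat.totient q : ℝ)) * (32 * (N : ℝ) ^ (7 / 8 : ℝ))) ≤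
      J * ((1 + Real.log N) ^ 2 * (32 * (N : ℝ) ^ (7 / 8 : ℝ))) := by
    rw [← mul_sum, ← sum_mul]
    apply mul_le_mul_of_nonneg_left _ (Nat.cast_nonneg _)
    apply mul_le_mul_of_nonneg_right _ (by positivity)
    have hlogQ : Real.log Q ≤ Real.log N := Real.log_le_log (by exact_mod_cast hQ1) (by exact_mod_cast hQN)
    have hlogQ0 : 0 ≤ Real.log Q := Real.log_natCast_nonneg Q
    calc ∑ q ∈ (Icc 1 Q).filter Squarefree, 1 / (Nat.totient q : ℝ) ≤ ∑ q ∈ Icc 1 Q, 1 / (Nat.totient q : ℝ) :=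
          sum_le_sum_of_subset_of_nonneg (filter_subset _ _) (fun _ _ _ => by positivity)
      _ ≤ (1 + Real.log Q) ^ 2 := Pool.Agent.H441R3.BV.sum_inv_tot Q
      _ ≤ _ := by gcongr
  rw [mul_add]
  exact add_le_add h1 h2

/-- final numerics -/
lemma fin_num (N L E1 E2 P7 Ps Nh : ℝ) (U : ℕ) (J : ℝ) (hJ : J ≤ 600 * L) (hL : 1 ≤ L)
    (hN : 0 < N) (hP7 : 0 ≤ P7) (hP7s : P7 ≤ Ps) (hPs : Ps * Nh = N)
    (hE : E1 = N / L ^ (U + 5)) (hE2 : E2 = 8 ^ (U + 5))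
    (h1 : 2 * (2400 * (72 + 6 * E2)) ≤ L) (h2 : 2 * 660000 * L ^ (3 + (U + 5) + U) ≤ Nh) :
    J * ((1 + L) ^ 2 * (12 * (1 + L) * (3 * N / L ^ (U + 5) + 8 * Ps) + 6 * E2 * (N / L ^ (U + 5)) +
      8 * (P7 * L ^ (U + 5))) + (1 + L) ^ 2 * (32 * P7)) ≤ N / L ^ U := by
  have hL0 : 0 < L := by linarith
  have hPs0 : 0 ≤ Ps := hP7.trans hP7s
  have hE20 : 0 ≤ E2 := by rw [hE2]; positivity
  have hE10 : 0 ≤ E1 := by rw [hE]; positivity
  have hLB : L ≤ L ^ (U + 5) := by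
    calc L = L ^ 1 := (pow_one L).symm
      _ ≤ L ^ (U + 5) := pow_le_pow_right₀ hL (by omega)
  have hLB1 : 1 ≤ L ^ (U + 5) := one_le_pow₀ hL
  set M := L ^ (U + 5) with hM
  have e3 : 3 * N / M = 3 * E1 := by rw [hE]; ring
  rw [e3, ← hE]
  -- replace `1 + L` by `2 L`
  have a1 : (1 + L) ^ 2 ≤ 4 * L ^ 2 := by nlinarith
  have b1 : 12 * (1 + L) * (3 * E1 + 8 * Ps) ≤ 24 * L * (3 * E1 + 8 * Ps) := by
    apply mul_le_mul_of_nonneg_right _ (by positivity)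
    linarith
  have b2 : 8 * (P7 * M) ≤ 8 * (Ps * M) := by gcongr
  have step1 : (1 + L) ^ 2 * (12 * (1 + L) * (3 * E1 + 8 * Ps) + 6 * E2 * E1 +
      8 * (P7 * M)) + (1 + L) ^ 2 * (32 * P7) ≤
      4 * L ^ 2 * (24 * L * (3 * E1 + 8 * Ps) + 6 * E2 * E1 + 8 * (Ps * M) + 32 * Ps) := by
    rw [← mul_add]
    apply mul_le_mul a1 _ (by positivity) (by positivity)
    linarith
  have step2 : 24 * L * (3 * E1 + 8 * Ps) + 6 * E2 * E1 + 8 * (Ps * M) + 32 * Ps ≤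
      L * ((72 + 6 * E2) * E1) + 232 * (Ps * M) := by
    have c1 : 6 * E2 * E1 ≤ L * (6 * E2 * E1) := by
      have : 0 ≤ 6 * E2 * E1 := by positivity
      nlinarith
    have c2 : L * Ps ≤ Ps * M := by rw [mul_comm]; gcongr
    have c3 : Ps ≤ Ps * M := by
      calc Ps = Ps * 1 := (mul_one _).symm
        _ ≤ Ps * M := by gcongr
    nlinarith
  have hE1L : L ^ 4 * E1 * L = N / L ^ U := by
    rw [hE, hM, pow_add]
    field_simp
  have step3 : J * ((1 + L) ^ 2 * (12 * (1 + L) * (3 * E1 + 8 * Ps) + 6 * E2 * E1 +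
      8 * (P7 * M)) + (1 + L) ^ 2 * (32 * P7)) ≤
      (600 * L) * (4 * L ^ 2 * (L * ((72 + 6 * E2) * E1) + 232 * (Ps * M))) := by
    apply mul_le_mul hJ _ (by positivity) (by positivity)
    refine step1.trans ?_
    gcongr
  refine step3.trans ?_
  have f1 : (600 * L) * (4 * L ^ 2 * (L * ((72 + 6 * E2) * E1))) ≤ (1 / 2) * (N / L ^ U) := by
    rw [← hE1L]
    have : (600 * L) * (4 * L ^ 2 * (L * ((72 + 6 * E2) * E1))) = (2400 * (72 + 6 * E2)) * (L ^ 4 * E1) := by ring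
    rw [this]
    have g0 : 0 ≤ L ^ 4 * E1 := by positivity
    nlinarith
  have f2 : (600 * L) * (4 * L ^ 2 * (232 * (Ps * M))) ≤ (1 / 2) * (N / L ^ U) := by
    rw [mul_div_assoc', le_div_iff₀ (by positivity), ← hPs]
    have : (600 * L) * (4 * L ^ 2 * (232 * (Ps * M))) * L ^ U = 556800 * (Ps * L ^ (3 + (U + 5) + U)) := by
      rw [hM]; ring
    rw [this]
    have g0 : 0 ≤ Ps * L ^ (3 + (U + 5) + U) := by positivity
    calc 556800 * (Ps * L ^ (3 + (U + 5) + U)) ≤ 660000 * (Ps * L ^ (3 + (U + 5) + U)) := by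
          apply mul_le_mul_of_nonneg_right (by norm_num) g0
      _ = 1 / 2 * (Ps * (2 * 660000 * L ^ (3 + (U + 5) + U))) := by ring
      _ ≤ _ := by gcongr
  calc (600 * L) * (4 * L ^ 2 * (L * ((72 + 6 * E2) * E1) + 232 * (Ps * M))) =
      (600 * L) * (4 * L ^ 2 * (L * ((72 + 6 * E2) * E1))) + (600 * L) * (4 * L ^ 2 * (232 * (Ps * M))) := by ring
    _ ≤ _ := by linarith

end Bvb

open Finset Filter Bvb

theorem bvb : ∀ U : ℕ, ∀ᶠ N : ℕ in atTop, Dist (wB N) (∑ n ∈ Icc 1 (2 * N), wB N n) (2 * N)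
    ⌊(N : ℝ) ^ (999 / 2000 : ℝ)⌋₊ (N / Real.log N ^ U) := by
  intro U
  have hev : ∀ᶠ x : ℝ in atTop, 2 * 660000 * Real.log x ^ (3 + (U + 5) + U) ≤ x ^ (1 / 2000 : ℝ) :=
    Pool.Agent.H398R2.BV.ev_log (2 * 660000) (3 + (U + 5) + U) (1 / 2000) (by norm_num)
  filter_upwards [cell_bound (U + 5) (U + 5), evR _ hev,
    evR _ (Real.tendsto_log_atTop.eventually_ge_atTop (2 * (2400 * (72 + 6 * (8 : ℝ) ^ (U + 5))))),
    evR _ (Real.tendsto_log_atTop.eventually_ge_atTop (1 : ℝ)), eventually_ge_atTop 2] with N hc h1 h2 h3 hN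
  intro h hh
  have hN0 : (0 : ℝ) < N := by positivity
  have hN1r : (1 : ℝ) ≤ N := by exact_mod_cast (show 1 ≤ N by omega)
  have hQ1 : 1 ≤ ⌊(N : ℝ) ^ (999 / 2000 : ℝ)⌋₊ := by
    apply Nat.le_floor
    rw [Nat.cast_one]
    exact Real.one_le_rpow hN1r (by norm_num)
  have hQN : ⌊(N : ℝ) ^ (999 / 2000 : ℝ)⌋₊ ≤ N := by
    have : (⌊(N : ℝ) ^ (999 / 2000 : ℝ)⌋₊ : ℝ) ≤ N := by
      refine (Nat.floor_le (by positivity)).trans ?_
      calc (N : ℝ) ^ (999 / 2000 : ℝ) ≤ (N : ℝ) ^ (1 : ℝ) := Real.rpow_le_rpow_of_exponent_le hN1r (by norm_num)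
        _ = N := Real.rpow_one _
    exact_mod_cast this
  refine (total N hN _ hQ1 hQN h _ (fun j => hc j h hh)).trans ?_
  refine fin_num N (Real.log N) _ (8 ^ (U + 5)) ((N : ℝ) ^ (7 / 8 : ℝ)) ((N : ℝ) ^ (1999 / 2000 : ℝ))
    ((N : ℝ) ^ (1 / 2000 : ℝ)) U _ (J_le N hN h3) h3 hN0 (by positivity) ?_ ?_
    rfl rfl h2 h1
  · exact Real.rpow_le_rpow_of_exponent_le hN1r (by norm_num)
  · rw [← Real.rpow_add hN0]
    norm_num

end Pool.Agent.J4.H38.CH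

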